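import Pool.Agent.KT3.StmtsM

/-!
# KT3 squad, row CHO: choice of the partner
-/

set_option autoImplicit false

open Matrix Filter Topology

namespace Pool.Agent.KT3.H52

open Pool.Agent.PFS Pool.Agent.PFJ Pool.Agent.NBT

/-- the largest multiple of `v` below `e` -/
theorem exMax {n : ℕ} {C : Set (V n)} (h : PCone C) {e v : V n} (he : e ∈ closure C)
    (hv : v ∈ closure C) (hv0 : v ≠ 0) :
    ∃ b : ℝ, 0 ≤ b ∧ e - b • v ∈ closure C ∧ ∀ c : ℝ, e - c • v ∈ closure C → c ≤ b := by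
  obtain ⟨B, hB, hn⟩ := h.normal
  let S : Set ℝ := {c : ℝ | 0 ≤ c ∧ e - c • v ∈ closure C}
  have hvn : 0 < ‖v‖ := norm_pos_iff.mpr hv0
  have h0 : (0 : ℝ) ∈ S := ⟨le_refl _, by rw [zero_smul, sub_zero]; exact he⟩
  have hcl : IsClosed S := by
    have h1 : IsClosed {c : ℝ | 0 ≤ c} := isClosed_le continuous_const continuous_id
    have h2 : IsClosed {c : ℝ | e - c • v ∈ closure C} :=
      isClosed_closure.preimage (by fun_prop)
    exact h1.inter h2
  have hb : ∀ c : ℝ, 0 ≤ c → e - c • v ∈ closure C → c ≤ B * ‖e‖ / ‖v‖ := by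
    intro c hc hec
    have h1 := hn (c • v) e (h.cl_smul hv hc) hec
    rw [norm_smul, Real.norm_of_nonneg hc] at h1
    rw [le_div_iff₀ hvn]
    exact h1
  have hsub : S ⊆ Set.Icc 0 (B * ‖e‖ / ‖v‖) := fun c hc => ⟨hc.1, hb c hc.1 hc.2⟩
  have hcp : IsCompact S := isCompact_Icc.of_isClosed_subset hcl hsub
  obtain ⟨b, hbS, hmax⟩ := hcp.exists_isMaxOn ⟨0, h0⟩ (f := fun c : ℝ => c) (by fun_prop)
  refine ⟨b, hbS.1, hbS.2, fun c hc => ?_⟩
  by_cases hc0 : 0 ≤ c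
  · exact hmax (⟨hc0, hc⟩ : c ∈ S)
  · exact (not_le.1 hc0).le.trans hbS.1

theorem cho (phu : PhuStmt) (wif : WifStmt) (lfm : LfmStmt) (lfd : LfdStmt) (anf : AnfStmt)
    (anm : AnmStmt) : ChoStmt := by
  intro n C Γ d q h w N hAN φ pr hφ hpr z hz hφz
  have hI : HI C Γ 3 I01 d := h.toHI
  have hP : PCone C := h.toHI.toHK.toCC.toPCone
  have hw := hAN.wl
  obtain ⟨a1, -, -, -, -, -, -⟩ := wif n C Γ 3 I01 d hI w hw pr hpr
  obtain ⟨u1, -, -, -, -⟩ := phu n C Γ 3 hI.toHK w hw.pes 0 φ hφ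
  have hF0 : w 0 ∈ BI C w I01 := hw.box.mem 0 (by decide)
  have hF1 : w 1 ∈ BI C w I01 := hw.box.mem 1 (by decide)
  have hB : ∀ x, φ (pr x) = φ x := by
    have k := u1 (φ ∘ₗ pr) (fun x hx => hφ.pos _ (hpr.pos x hx)) (by
      intro j hj
      fin_cases j
      · exact absurd rfl hj
      · change φ (pr (w 1)) = 0
        rw [hpr.idB _ hF1]
        exact hφ.zero 1 (by decide)
      · change φ (pr (w 2)) = 0
        rw [a1 2 (by decide), map_zero])
    simp only [LinearMap.comp_apply] at k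
    rw [hpr.idB _ hF0, hφ.one] at k
    intro x
    rw [k x, one_mul]
  obtain ⟨x, b, hb0, hx, hprz, hφx⟩ :=
    (lfd n C Γ d h w hw φ hφ (pr z) (hpr.mem z) (hpr.pos z hz)).1 (by rw [hB]; exact hφz)
  rw [hB] at hφx
  obtain ⟨p, hp⟩ := hAN.prj x hx
  obtain ⟨-, -, -, f4, -⟩ := anf n C Γ d q h w N hAN φ hφ
  obtain ⟨-, -, hφp, hunt⟩ := f4 x hx p hp
  have he : p z ∈ closure C := hp.pos z hz
  have hw2 : w 2 ∈ closure C := hw.pes.1.cl 2
  have hw20 : w 2 ≠ 0 := by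
    intro h0
    refine hw.pes.1.bd (fun i => if i = 2 then 0 else 1) (fun i => by split_ifs <;> norm_num)
      ⟨2, by simp⟩ ?_
    have h1 : ∑ i : Fin 3, (if i = 2 then (0 : ℝ) else 1) • w i = ∑ i : Fin 3, (1 : ℝ) • w i := by
      refine Finset.sum_congr rfl fun i _ => ?_
      by_cases hi : i = 2
      · subst hi
        rw [h0, smul_zero, smul_zero]
      · rw [if_neg hi]
    rw [h1]
    exact hw.pes.1.pos (fun _ => 1) (fun _ => one_pos)
  obtain ⟨b', hb', hmem, hmax⟩ := exMax hP he hw2 hw20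
  have hx0 : p (p z - b' • w 2) = p z - b' • w 2 := by
    rw [map_sub, map_smul, hp.idm, hp.fv]
  have hφx0 : φ (p z - b' • w 2) = φ z := by
    rw [map_sub, map_smul, hφp, hφ.zero 2 (by decide), smul_zero, sub_zero]
  have hnon : ¬ Unt C (LinearMap.range p) (p z - b' • w 2) := by
    rintro ⟨-, -, hu⟩
    obtain ⟨M, hM, hMz⟩ := hu (w 2) ⟨w 2, hp.fv⟩
    have h1 : p z - (b' + M⁻¹) • w 2 ∈ closure C := by
      have h2 : p z - (b' + M⁻¹) • w 2 = M⁻¹ • (M • (p z - b' • w 2) - w 2) := by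
        rw [smul_sub, smul_smul, inv_mul_cancel₀ hM.ne', one_smul, add_smul, sub_sub]
      rw [h2]
      exact hP.cl_smul hMz (inv_pos.mpr hM).le
    have h3 := hmax _ h1
    have h4 := inv_pos.mpr hM
    linarith
  obtain ⟨hAN', hpr'⟩ := anm n C Γ d q h w N hAN φ hφ x hx p hp _ hx0 hmem hnon
    (by rw [hφx0]; exact hφz)
  refine ⟨p, x, p z - b' • w 2, b, b', ?_, hAN'⟩
  have hprx : pr (p z - b' • w 2) = x := by
    rw [hpr' pr hpr, hφx0, hφx, mul_inv_cancel₀ hφz.ne', one_smul]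
  exact ⟨hx, hp, hb0, hb', hprz, (sub_add_cancel _ _).symm, hx0, hprx, hmem, hφx, hφx0⟩

end Pool.Agent.KT3.H52
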